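import Mathlib
import Pool.Agent.V5helper49.IR.Stm2

set_option autoImplicit false

namespace Pool.Agent.V5helper76.IR

open Finset
open Pool.Agent.V5helper49.IR

lemma EB_add (p : ℕ → ℝ) (M : ℕ) : ∀ F G : Finset ℕ → ℝ,
    EB p M (fun B => F B + G B) = EB p M F + EB p M G := by
  induction M with
  | zero => intro F G; rfl
  | succ M ih =>
    intro F G
    show p M * EB p M (fun B => F (insert M B) + G (insert M B)) +
        (1 - p M) * EB p M (fun B => F B + G B) =
      (p M * EB p M (fun B => F (insert M B)) + (1 - p M) * EB p M F) +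
      (p M * EB p M (fun B => G (insert M B)) + (1 - p M) * EB p M G)
    rw [ih (fun B => F (insert M B)) (fun B => G (insert M B)), ih F G]
    ring

lemma EB_sub (p : ℕ → ℝ) (M : ℕ) : ∀ F G : Finset ℕ → ℝ,
    EB p M (fun B => F B - G B) = EB p M F - EB p M G := by
  induction M with
  | zero => intro F G; rfl
  | succ M ih =>
    intro F G
    show p M * EB p M (fun B => F (insert M B) - G (insert M B)) +
        (1 - p M) * EB p M (fun B => F B - G B) =
      (p M * EB p M (fun B => F (insert M B)) + (1 - p M) * EB p M F) -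
      (p M * EB p M (fun B => G (insert M B)) + (1 - p M) * EB p M G)
    rw [ih (fun B => F (insert M B)) (fun B => G (insert M B)), ih F G]
    ring

lemma EB_mono (p : ℕ → ℝ) (hp : ∀ k, 0 ≤ p k ∧ p k ≤ 1) (M : ℕ) :
    ∀ F G : Finset ℕ → ℝ, (∀ B, F B ≤ G B) → EB p M F ≤ EB p M G := by
  induction M with
  | zero => intro F G h; exact h ∅
  | succ M ih =>
    intro F G h
    show p M * EB p M (fun B => F (insert M B)) + (1 - p M) * EB p M F ≤
      p M * EB p M (fun B => G (insert M B)) + (1 - p M) * EB p M G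
    have h1 := mul_le_mul_of_nonneg_left (ih (fun B => F (insert M B))
      (fun B => G (insert M B)) fun B => h _) (hp M).1
    have h2 := mul_le_mul_of_nonneg_left (ih F G h) (sub_nonneg.2 (hp M).2)
    linarith

lemma EB_const_zero (p : ℕ → ℝ) (M : ℕ) : EB p M (fun _ => 0) = 0 := by
  induction M with
  | zero => rfl
  | succ M ih =>
    show p M * EB p M (fun _ => 0) + (1 - p M) * EB p M (fun _ => 0) = 0
    rw [ih]; ring

/-- the number of present pairs with the smaller element in `P` -/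
def XP (n : ℕ) (P B : Finset ℕ) : ℕ := (P.filter (fun a => a ∈ B ∧ n - a ∈ B)).card

noncomputable def GG (p : ℕ → ℝ) (M n : ℕ) (P : Finset ℕ) (K : ℕ) (T : Finset ℕ) : ℝ :=
  EB p M (fun B => (if T ⊆ B then 1 else 0) * (if K ≤ XP n P B then 1 else 0))

lemma GG_insert (p : ℕ → ℝ) (M n : ℕ) (P : Finset ℕ) (a K : ℕ) (T : Finset ℕ) (ha : a ∉ P) :
    GG p M n (insert a P) (K + 1) T = GG p M n P K (insert a (insert (n - a) T)) +
      GG p M n P (K + 1) T - GG p M n P (K + 1) (insert a (insert (n - a) T)) := by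
  unfold GG
  rw [← EB_add, ← EB_sub]
  congr 1
  funext B
  have hX : XP n (insert a P) B = if a ∈ B ∧ n - a ∈ B then XP n P B + 1 else XP n P B := by
    unfold XP
    rw [Finset.filter_insert]
    split_ifs with h
    · rw [Finset.card_insert_of_notMem]
      simp [ha]
    · rfl
  rw [hX]
  by_cases hT : T ⊆ B
  · by_cases h : a ∈ B ∧ n - a ∈ B
    · have h1 : insert a (insert (n - a) T) ⊆ B := by
        rw [Finset.insert_subset_iff, Finset.insert_subset_iff]
        exact ⟨h.1, h.2, hT⟩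
      rw [if_pos h, if_pos h1, if_pos hT]
      have h2 : (K + 1 ≤ XP n P B + 1) ↔ (K ≤ XP n P B) := by omega
      simp only [h2]; ring
    · have h1 : ¬ insert a (insert (n - a) T) ⊆ B := fun h2 =>
        h ⟨h2 (by simp), h2 (by simp)⟩
      rw [if_neg h, if_neg h1, if_pos hT]; ring
  · have h1 : ¬ insert a (insert (n - a) T) ⊆ B := fun h2 =>
      hT (fun x hx => h2 (by simp [hx]))
    rw [if_neg hT, if_neg h1]; ring

lemma GG_zero (hSUB : S_SUB) (p : ℕ → ℝ) (M n : ℕ) (P T : Finset ℕ) (hT : T ⊆ range M) :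
    GG p M n P 0 T = ∏ t ∈ T, p t := by
  unfold GG
  simp only [Nat.zero_le, if_true, mul_one]
  exact hSUB p M T hT

lemma GG_empty_succ (p : ℕ → ℝ) (M n K : ℕ) (T : Finset ℕ) : GG p M n ∅ (K + 1) T = 0 := by
  unfold GG
  have h : (fun B : Finset ℕ => (if T ⊆ B then (1 : ℝ) else 0) *
      (if K + 1 ≤ XP n ∅ B then 1 else 0)) = fun _ => 0 := by
    funext B
    simp [XP]
  rw [h]; exact EB_const_zero p M

lemma GG_key (p : ℕ → ℝ) (M n : ℕ) (P : Finset ℕ) (a : ℕ) (ha : a ∉ P)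
    (hP : ∀ b ∈ insert a P, 2 * b < n ∧ n - b < M)
    (ih : ∀ (K : ℕ) (T : Finset ℕ), T ⊆ range M → (∀ b ∈ P, b ∉ T ∧ n - b ∉ T) →
      GG p M n P K T = (∏ t ∈ T, p t) * GG p M n P K ∅) (K : ℕ) (T : Finset ℕ)
    (hT : T ⊆ range M) (hd : ∀ b ∈ insert a P, b ∉ T ∧ n - b ∉ T) :
    GG p M n (insert a P) (K + 1) T = (∏ t ∈ T, p t) * (p a * p (n - a) * GG p M n P K ∅ +
      (1 - p a * p (n - a)) * GG p M n P (K + 1) ∅) := by
  have ha1 := hP a (mem_insert_self a P)
  have hdP : ∀ b ∈ P, b ∉ T ∧ n - b ∉ T := fun b hb => hd b (mem_insert_of_mem hb)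
  have hda := hd a (mem_insert_self a P)
  have hT' : insert a (insert (n - a) T) ⊆ range M := by
    rw [insert_subset_iff, insert_subset_iff, mem_range, mem_range]
    exact ⟨by omega, ha1.2, hT⟩
  have hd' : ∀ b ∈ P, b ∉ insert a (insert (n - a) T) ∧ n - b ∉ insert a (insert (n - a) T) := by
    intro b hb
    have h1 := hP b (mem_insert_of_mem hb)
    have h2 := hdP b hb
    have h3 : b ≠ a := fun h => ha (h ▸ hb)
    simp only [mem_insert, not_or]
    refine ⟨⟨h3, by omega, h2.1⟩, by omega, by omega, h2.2⟩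
  have hprod : ∏ t ∈ insert a (insert (n - a) T), p t = p a * (p (n - a) * ∏ t ∈ T, p t) := by
    rw [prod_insert, prod_insert hda.2]
    rw [mem_insert, not_or]; exact ⟨by omega, hda.1⟩
  rw [GG_insert _ _ _ _ _ _ _ ha, ih K _ hT' hd', ih (K + 1) T hT hdP, ih (K + 1) _ hT' hd',
    hprod]
  ring

lemma GG_rec (hSUB : S_SUB) (p : ℕ → ℝ) (M n : ℕ) (P : Finset ℕ) :
    (∀ a ∈ P, 2 * a < n ∧ n - a < M) → ∀ (K : ℕ) (T : Finset ℕ), T ⊆ range M →
    (∀ a ∈ P, a ∉ T ∧ n - a ∉ T) →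
    GG p M n P K T = (∏ t ∈ T, p t) * GG p M n P K ∅ := by
  induction P using Finset.induction_on with
  | empty =>
    intro _ K T hT _
    cases K with
    | zero =>
      rw [GG_zero hSUB _ _ _ _ _ hT, GG_zero hSUB _ _ _ _ _ (empty_subset _)]; simp
    | succ K => rw [GG_empty_succ, GG_empty_succ]; simp
  | insert a P ha ih =>
    intro hP K T hT hd
    have hP' : ∀ b ∈ P, 2 * b < n ∧ n - b < M := fun b hb => hP b (mem_insert_of_mem hb)
    cases K with
    | zero =>
      rw [GG_zero hSUB _ _ _ _ _ hT, GG_zero hSUB _ _ _ _ _ (empty_subset _)]; simp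
    | succ K =>
      rw [GG_key p M n P a ha hP (ih hP') K T hT hd,
        GG_key p M n P a ha hP (ih hP') K ∅ (empty_subset _) (by simp), prod_empty, one_mul]

noncomputable def HH (η : ℝ) (K : ℕ) (x : ℝ) : ℝ := (max (x - K * η) 0) ^ K / K.factorial

lemma HH_nonneg (η : ℝ) (K : ℕ) (x : ℝ) : 0 ≤ HH η K x := by
  unfold HH
  have : 0 ≤ max (x - K * η) 0 := le_max_right _ _
  positivity

lemma pow_sub_le (X Y : ℝ) (hX : 0 ≤ X) (hXY : X ≤ Y) (K : ℕ) :
    Y ^ (K + 1) - X ^ (K + 1) ≤ (K + 1) * (Y - X) * Y ^ K := by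
  induction K with
  | zero => simp
  | succ K ih =>
    have hY : 0 ≤ Y := hX.trans hXY
    have h1 : X ^ (K + 1) ≤ Y ^ (K + 1) := pow_le_pow_left₀ hX hXY _
    have h2 : Y ^ (K + 1 + 1) - X ^ (K + 1 + 1) =
        Y * (Y ^ (K + 1) - X ^ (K + 1)) + (Y - X) * X ^ (K + 1) := by ring
    have h3 := mul_le_mul_of_nonneg_left ih hY
    have h4 := mul_le_mul_of_nonneg_left h1 (sub_nonneg.2 hXY)
    rw [h2]
    push_cast
    calc Y * (Y ^ (K + 1) - X ^ (K + 1)) + (Y - X) * X ^ (K + 1)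
        ≤ Y * ((K + 1) * (Y - X) * Y ^ K) + (Y - X) * Y ^ (K + 1) := add_le_add h3 h4
      _ = ((K : ℝ) + 1 + 1) * (Y - X) * Y ^ (K + 1) := by ring

lemma HH_step (η : ℝ) (K : ℕ) (x q : ℝ) (hq : 0 ≤ q) (hqη : q ≤ η) :
    HH η (K + 1) (x + q) ≤ HH η (K + 1) x + q * HH η K x := by
  unfold HH
  have hc : ((K + 1 : ℕ) : ℝ) * η = K * η + η := by push_cast; ring
  rw [hc]
  set Y := max (x + q - (K * η + η)) 0 with hY
  set X := max (x - (K * η + η)) 0 with hX
  set Z := max (x - (K : ℝ) * η) 0 with hZ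
  have hX0 : 0 ≤ X := le_max_right _ _
  have hXY : X ≤ Y := max_le_max (by linarith) le_rfl
  have hYZ : Y ≤ Z := max_le_max (by linarith) le_rfl
  have hd : Y ≤ X + q := by
    refine max_le ?_ (by linarith)
    have := le_max_left (x - (K * η + η)) 0
    rw [← hX] at this
    linarith
  have h1 := pow_sub_le X Y hX0 hXY K
  have hf : ((K + 1).factorial : ℝ) = (K + 1) * K.factorial := by
    rw [Nat.factorial_succ]; push_cast; ring
  have hf0 : (0 : ℝ) < K.factorial := by exact_mod_cast K.factorial_pos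
  rw [hf]
  have h2 : Y ^ (K + 1) ≤ X ^ (K + 1) + (K + 1) * q * Z ^ K := by
    have h4 := pow_le_pow_left₀ (hX0.trans hXY) hYZ K
    have h5 : 0 ≤ Y ^ K := pow_nonneg (hX0.trans hXY) _
    have h3 : (K + 1) * (Y - X) * Y ^ K ≤ (K + 1) * q * Z ^ K :=
      mul_le_mul (mul_le_mul_of_nonneg_left (by linarith) (by positivity)) h4 h5
        (by positivity)
    linarith
  calc Y ^ (K + 1) / ((K + 1) * K.factorial)
      ≤ (X ^ (K + 1) + (K + 1) * q * Z ^ K) / ((K + 1) * K.factorial) :=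
        div_le_div_of_nonneg_right h2 (by positivity)
    _ = X ^ (K + 1) / ((K + 1) * K.factorial) + q * (Z ^ K / K.factorial) := by
        field_simp

lemma GG_lower (hSUB : S_SUB) (p : ℕ → ℝ) (hp : ∀ k, 0 ≤ p k ∧ p k ≤ 1) (M n : ℕ) (η : ℝ)
    (hη0 : 0 ≤ η) (P : Finset ℕ) :
    (∀ a ∈ P, 2 * a < n ∧ n - a < M) → (∀ a ∈ P, p a * p (n - a) ≤ η) → ∀ K : ℕ,
    HH η K (∑ a ∈ P, p a * p (n - a)) * ∏ a ∈ P, (1 - p a * p (n - a)) ≤ GG p M n P K ∅ := by
  have hq1 : ∀ a, p a * p (n - a) ≤ 1 := fun a =>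
    mul_le_one₀ (hp a).2 (hp _).1 (hp _).2
  have hq0 : ∀ a, 0 ≤ p a * p (n - a) := fun a => mul_nonneg (hp a).1 (hp _).1
  have hz : ∀ P : Finset ℕ, HH η 0 (∑ a ∈ P, p a * p (n - a)) *
      ∏ a ∈ P, (1 - p a * p (n - a)) ≤ GG p M n P 0 ∅ := by
    intro P
    rw [GG_zero hSUB _ _ _ _ _ (empty_subset _), prod_empty]
    have h1 : HH η 0 (∑ a ∈ P, p a * p (n - a)) = 1 := by simp [HH]
    rw [h1, one_mul]
    exact prod_le_one (fun a _ => sub_nonneg.2 (hq1 a)) (fun a _ => by linarith [hq0 a])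
  induction P using Finset.induction_on with
  | empty =>
    intro _ _ K
    cases K with
    | zero => exact hz ∅
    | succ K =>
      rw [GG_empty_succ, sum_empty, prod_empty, mul_one]
      unfold HH
      rw [max_eq_right (by
        have : (0 : ℝ) ≤ ((K + 1 : ℕ) : ℝ) * η := by positivity
        linarith)]
      simp
  | insert a P ha ih =>
    intro hP hPη K
    cases K with
    | zero => exact hz _
    | succ K =>
      have hP' : ∀ b ∈ P, 2 * b < n ∧ n - b < M := fun b hb => hP b (mem_insert_of_mem hb)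
      have ih' := ih hP' (fun b hb => hPη b (mem_insert_of_mem hb))
      rw [GG_key p M n P a ha hP (GG_rec hSUB p M n P hP') K ∅ (empty_subset _) (by simp),
        prod_empty, one_mul, sum_insert ha, prod_insert ha]
      set q := p a * p (n - a) with hq
      set lam := ∑ b ∈ P, p b * p (n - b) with hlam
      set W := ∏ b ∈ P, (1 - p b * p (n - b)) with hW
      have hW0 : 0 ≤ W := prod_nonneg fun b _ => sub_nonneg.2 (hq1 b)
      have h1q : 0 ≤ q := hq0 a
      have h2q : q ≤ 1 := hq1 a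
      have hs := HH_step η K lam q h1q (hPη a (mem_insert_self _ _))
      rw [add_comm q lam]
      have hH0 := HH_nonneg η K lam
      have i1 := mul_le_mul_of_nonneg_left (ih' K) h1q
      have i2 := mul_le_mul_of_nonneg_left (ih' (K + 1)) (sub_nonneg.2 h2q)
      calc HH η (K + 1) (lam + q) * ((1 - q) * W)
          ≤ (HH η (K + 1) lam + q * HH η K lam) * ((1 - q) * W) :=
            mul_le_mul_of_nonneg_right hs (mul_nonneg (sub_nonneg.2 h2q) hW0)
        _ = (1 - q) * (HH η (K + 1) lam * W) + (1 - q) * (q * (HH η K lam * W)) := by ring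
        _ ≤ (1 - q) * (HH η (K + 1) lam * W) + 1 * (q * (HH η K lam * W)) := by
            have : 0 ≤ q * (HH η K lam * W) := by positivity
            have h3 : (1 - q) * (q * (HH η K lam * W)) ≤ 1 * (q * (HH η K lam * W)) :=
              mul_le_mul_of_nonneg_right (by linarith) this
            linarith
        _ ≤ q * GG p M n P K ∅ + (1 - q) * GG p M n P (K + 1) ∅ := by linarith

lemma exists_sub (S : Finset ℕ) (q : ℕ → ℝ) (η l : ℝ) (hl : 0 < l) :
    (∀ a ∈ S, q a ≤ η) → l ≤ ∑ a ∈ S, q a →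
    ∃ P ⊆ S, l ≤ ∑ a ∈ P, q a ∧ ∑ a ∈ P, q a ≤ l + η := by
  induction S using Finset.induction_on with
  | empty => intro _ h; simp at h; linarith
  | insert a S ha ih =>
    intro hq h
    by_cases h1 : l ≤ ∑ a ∈ S, q a
    · obtain ⟨P, hP, h2⟩ := ih (fun b hb => hq b (mem_insert_of_mem hb)) h1
      exact ⟨P, hP.trans (subset_insert _ _), h2⟩
    · refine ⟨insert a S, Subset.rfl, h, ?_⟩
      rw [sum_insert ha]
      have h2 := hq a (mem_insert_self _ _)
      push Not at h1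
      linarith

lemma exp_le (q : ℝ) (h0 : 0 ≤ q) (h1 : q ≤ 1 / 2) : Real.exp (-(2 * q)) ≤ 1 - q := by
  rw [Real.exp_neg]
  have h2 := Real.add_one_le_exp (2 * q)
  have h3 : (0 : ℝ) < 2 * q + 1 := by linarith
  calc (Real.exp (2 * q))⁻¹ ≤ (2 * q + 1)⁻¹ := inv_anti₀ h3 h2
    _ ≤ 1 - q := by
      rw [inv_le_iff_one_le_mul₀ h3]
      nlinarith

theorem t_PZ (hSUB : S_SUB) : S_PZ := by
  intro K l₀ hl₀
  set ε₀ : ℝ := min (1 / 2) (l₀ / (2 * (K + 1))) with hε
  have hε0 : 0 < ε₀ := lt_min (by norm_num) (by positivity)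
  have hε1 : ε₀ ≤ 1 / 2 := min_le_left _ _
  have hε2 : ε₀ ≤ l₀ / (2 * (K + 1)) := min_le_right _ _
  refine ⟨ε₀, hε0, (l₀ / 2) ^ K / K.factorial * Real.exp (-(2 * (l₀ + 1))), by positivity, ?_⟩
  intro p hp k₀ M n hpk hl
  have hPSq : ∀ a ∈ PS k₀ M n, p a * p (n - a) ≤ ε₀ := by
    intro a ha
    unfold PS at ha
    rw [mem_filter] at ha
    have h1 := hpk a ha.2.1
    calc p a * p (n - a) ≤ ε₀ * 1 := mul_le_mul h1 (hp _).2 (hp _).1 hε0.le
      _ = ε₀ := mul_one _
  obtain ⟨P, hPS, hP1, hP2⟩ := exists_sub (PS k₀ M n) (fun a => p a * p (n - a)) ε₀ l₀ hl₀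
    hPSq hl
  have hP : ∀ a ∈ P, 2 * a < n ∧ n - a < M := by
    intro a ha
    have h1 := hPS ha
    unfold PS at h1
    rw [mem_filter] at h1
    exact h1.2.2
  have hPη : ∀ a ∈ P, p a * p (n - a) ≤ ε₀ := fun a ha => hPSq a (hPS ha)
  have hlow := GG_lower hSUB p hp M n ε₀ hε0.le P hP hPη K
  set x := ∑ a ∈ P, p a * p (n - a) with hx
  have hH : (l₀ / 2) ^ K / K.factorial ≤ HH ε₀ K x := by
    unfold HH
    have h1 : (K : ℝ) * ε₀ ≤ l₀ / 2 := by
      have h2 : (K : ℝ) * ε₀ ≤ (K + 1) * (l₀ / (2 * (K + 1))) :=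
        mul_le_mul (by linarith) hε2 hε0.le (by positivity)
      have h3 : ((K : ℝ) + 1) * (l₀ / (2 * (K + 1))) = l₀ / 2 := by field_simp
      linarith
    have h4 : l₀ / 2 ≤ max (x - K * ε₀) 0 := le_max_of_le_left (by linarith)
    have h5 := pow_le_pow_left₀ (by positivity : (0 : ℝ) ≤ l₀ / 2) h4 K
    exact div_le_div_of_nonneg_right h5 (by positivity)
  have hW : Real.exp (-(2 * (l₀ + 1))) ≤ ∏ a ∈ P, (1 - p a * p (n - a)) := by
    calc Real.exp (-(2 * (l₀ + 1))) ≤ Real.exp (∑ a ∈ P, (-(2 * (p a * p (n - a))))) := by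
          apply Real.exp_le_exp.2
          rw [sum_neg_distrib, ← mul_sum, ← hx]
          linarith
      _ = ∏ a ∈ P, Real.exp (-(2 * (p a * p (n - a)))) := Real.exp_sum _ _
      _ ≤ ∏ a ∈ P, (1 - p a * p (n - a)) :=
          prod_le_prod (fun a _ => (Real.exp_pos _).le) fun a ha =>
            exp_le _ (mul_nonneg (hp a).1 (hp _).1) ((hPη a ha).trans hε1)
  calc (l₀ / 2) ^ K / K.factorial * Real.exp (-(2 * (l₀ + 1)))
      ≤ HH ε₀ K x * ∏ a ∈ P, (1 - p a * p (n - a)) :=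
        mul_le_mul hH hW (Real.exp_pos _).le (HH_nonneg _ _ _)
    _ ≤ GG p M n P K ∅ := hlow
    _ ≤ EB p M (fun B => if K ≤ rr k₀ n B then 1 else 0) := by
        unfold GG
        refine EB_mono p hp M _ _ fun B => ?_
        have hle : XP n P B ≤ rr k₀ n B := by
          unfold XP rr
          refine card_le_card fun a ha => ?_
          rw [mem_filter] at ha ⊢
          have h1 := hPS ha.1
          unfold PS at h1
          rw [mem_filter] at h1
          exact ⟨ha.2.1, h1.2.1, h1.2.2.1, ha.2.2⟩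
        rw [if_pos (empty_subset B), one_mul]
        split_ifs with h1 h2 h2
        · exact le_rfl
        · exact absurd (h1.trans hle) h2
        · exact zero_le_one
        · exact le_rfl

end Pool.Agent.V5helper76.IR
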